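import Mathlib
import Pool.Agent.Helper85.Cap.Defs

/-!
Circled bodies in `ℂ²`: planar estimate of area by the support function.
-/
set_option autoImplicit false
open MeasureTheory Metric Set
open scoped ENNReal
open Pool.Agent.Helper85.Herm Pool.Agent.Helper85.Cap

namespace Pool.Agent.Helper90.Circ

/-- area in terms of an upper bound of the support function -/
theorem planar (D : Set (ℝ × ℝ)) (hD : MeasurableSet D) (k : ℝ → ℝ) (hk0 : ∀ θ, 0 ≤ k θ)
    (hk : ∀ p ∈ D, ∀ θ : ℝ, p.1 * Real.cos θ + p.2 * Real.sin θ ≤ k θ) :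
    volume D ≤ ∫⁻ θ in Ioo (-Real.pi) Real.pi, ENNReal.ofReal (k θ ^ 2 / 2) := by
  have h1 : volume D = ∫⁻ p : ℝ × ℝ, D.indicator 1 p := by
    rw [lintegral_indicator_one hD]
  rw [h1, ← lintegral_comp_polarCoord_symm, polarCoord_target]
  have hmeas : Measurable (fun p : ℝ × ℝ => ENNReal.ofReal p.1 •
      D.indicator (1 : ℝ × ℝ → ℝ≥0∞) (polarCoord.symm p)) := by
    have hc : Measurable (fun p : ℝ × ℝ => polarCoord.symm p) := by
      have : (fun p : ℝ × ℝ => polarCoord.symm p) =
          fun p : ℝ × ℝ => (p.1 * Real.cos p.2, p.1 * Real.sin p.2) := rfl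
      rw [this]; fun_prop
    exact (ENNReal.measurable_ofReal.comp measurable_fst).smul
      ((measurable_one.indicator hD).comp hc)
  rw [Measure.volume_eq_prod, ← Measure.prod_restrict, lintegral_prod_symm _ hmeas.aemeasurable]
  refine lintegral_mono fun θ => ?_
  have hle : ∀ r ∈ Ioi (0 : ℝ), ENNReal.ofReal r •
      D.indicator (1 : ℝ × ℝ → ℝ≥0∞) (polarCoord.symm (r, θ)) ≤
      (Ioc (0 : ℝ) (k θ)).indicator (fun r => ENNReal.ofReal r) r := by
    intro r hr
    by_cases hmem : polarCoord.symm (r, θ) ∈ D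
    · rw [indicator_of_mem hmem]
      have hrk : r ≤ k θ := by
        have := hk _ hmem θ
        have e : (polarCoord.symm (r, θ)).1 * Real.cos θ + (polarCoord.symm (r, θ)).2 * Real.sin θ
            = r := by
          change r * Real.cos θ * Real.cos θ + r * Real.sin θ * Real.sin θ = r
          have h2 := Real.sin_sq_add_cos_sq θ
          have h3 : r * Real.cos θ * Real.cos θ + r * Real.sin θ * Real.sin θ =
              r * (Real.sin θ ^ 2 + Real.cos θ ^ 2) := by ring
          rw [h3, h2, mul_one]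
        linarith
      rw [indicator_of_mem (show r ∈ Ioc (0 : ℝ) (k θ) from ⟨hr, hrk⟩)]
      simp
    · rw [indicator_of_notMem hmem]; simp
  calc ∫⁻ r in Ioi (0 : ℝ), ENNReal.ofReal (r, θ).1 •
        D.indicator (1 : ℝ × ℝ → ℝ≥0∞) (polarCoord.symm (r, θ))
      ≤ ∫⁻ r in Ioi (0 : ℝ), (Ioc (0 : ℝ) (k θ)).indicator (fun r => ENNReal.ofReal r) r :=
        setLIntegral_mono' measurableSet_Ioi hle
    _ ≤ ∫⁻ r, (Ioc (0 : ℝ) (k θ)).indicator (fun r => ENNReal.ofReal r) r :=
        setLIntegral_le_lintegral _ _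
    _ = ∫⁻ r in Ioc (0 : ℝ) (k θ), ENNReal.ofReal r := by
        rw [lintegral_indicator measurableSet_Ioc]
    _ = ENNReal.ofReal (k θ ^ 2 / 2) := by
        rw [← ofReal_integral_eq_lintegral_ofReal]
        · rw [← intervalIntegral.integral_of_le (hk0 θ), integral_id]
          congr 1; ring
        · exact (continuous_id.integrableOn_Icc).mono_set Ioc_subset_Icc_self
        · exact (ae_restrict_mem measurableSet_Ioc).mono fun r hr => hr.1.le

/-- support function of a body -/
noncomputable def hs (K : Body) (w : C2) : ℝ := sSup ((fun x : C2 => (inner ℝ x w : ℝ)) '' pts K)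

theorem pts_compact (K : Body) : IsCompact (pts K) := K.isCompact
theorem pts_nonempty (K : Body) : (pts K).Nonempty := K.nonempty

theorem hs_continuous (K : Body) : Continuous (hs K) := by
  unfold hs
  exact IsCompact.continuous_sSup (f := fun (w : C2) (x : C2) => (inner ℝ x w : ℝ))
    (pts_compact K) (by fun_prop)

theorem hs_bdd (K : Body) (w : C2) : BddAbove ((fun x : C2 => (inner ℝ x w : ℝ)) '' pts K) :=
  ((pts_compact K).image (by fun_prop)).bddAbove

theorem le_hs (K : Body) (w x : C2) (hx : x ∈ pts K) : (inner ℝ x w : ℝ) ≤ hs K w :=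
  le_csSup (hs_bdd K w) ⟨x, hx, rfl⟩

theorem hs_nonneg (K : Body) (h0 : (0 : C2) ∈ pts K) (w : C2) : 0 ≤ hs K w := by
  have := le_hs K w 0 h0
  rwa [inner_zero_left] at this

theorem hs_attained (K : Body) (w : C2) : ∃ x ∈ pts K, (inner ℝ x w : ℝ) = hs K w := by
  have h := ((pts_compact K).image
    (show Continuous (fun x : C2 => (inner ℝ x w : ℝ)) by fun_prop)).sSup_mem
    ((pts_nonempty K).image _)
  obtain ⟨x, hx, hxw⟩ := h
  exact ⟨x, hx, hxw⟩

theorem shadow_measurable (u : C2 → C2) (K : Body) (w : C2) :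
    MeasurableSet ((fun x : C2 => ((inner ℝ x w : ℝ), (inner ℝ x (u w) : ℝ))) '' pts K) :=
  ((pts_compact K).image (by fun_prop)).measurableSet

/-- area of the shadow, upper bound by the support function -/
theorem shad_le (u : C2 → C2) (K : Body) (h0 : (0 : C2) ∈ pts K) (w : C2) :
    shad u (pts K) w ≤ ∫⁻ θ in Ioo (-Real.pi) Real.pi,
      ENNReal.ofReal (hs K (Real.cos θ • w + Real.sin θ • u w) ^ 2 / 2) := by
  unfold shad
  refine planar _ (shadow_measurable u K w)
    (fun θ => hs K (Real.cos θ • w + Real.sin θ • u w)) (fun θ => hs_nonneg K h0 _) ?_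
  rintro _ ⟨x, hx, rfl⟩ θ
  have h := le_hs K (Real.cos θ • w + Real.sin θ • u w) x hx
  rw [inner_add_right, real_inner_smul_right, real_inner_smul_right] at h
  simp only
  linarith

end Pool.Agent.Helper90.Circ
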