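import Pool.Agent.Helper90.Circ.A
import Pool.Agent.Helper85.Cap.G4

/-!
Circled bodies in `ℂ²`: the Lagrangian mean is at most the complex mean, and the minimum of the
hermitian valuations over circled bodies.
-/
set_option autoImplicit false
open MeasureTheory Metric Set
open scoped ENNReal
open Pool.Agent.Helper85.Herm Pool.Agent.Helper85.Cap

namespace Pool.Agent.Helper90.Circ

/-- `K` is circled: `e^{it} K ⊆ K` for all real `t` -/
def Circled (K : Body) : Prop :=
  ∀ t : ℝ, ∀ x ∈ pts K, Real.cos t • x + Real.sin t • J x ∈ pts K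

theorem Circled.zero_mem {K : Body} (h : Circled K) : (0 : C2) ∈ pts K := by
  obtain ⟨x, hx⟩ := pts_nonempty K
  have h1 := h Real.pi x hx
  have h2 : Real.cos Real.pi • x + Real.sin Real.pi • J x = -x := by
    rw [Real.cos_pi, Real.sin_pi]; simp
  rw [h2] at h1
  have h3 := K.convex hx h1 (show (0 : ℝ) ≤ 1 / 2 by norm_num) (show (0 : ℝ) ≤ 1 / 2 by norm_num)
    (by norm_num)
  have h4 : (1 / 2 : ℝ) • x + (1 / 2 : ℝ) • -x = 0 := by simp
  rwa [h4] at h3

/-- rotation in the plane of `w` and `u w` -/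
noncomputable def rot (u : C2 ≃ₗᵢ[ℝ] C2) (hu : ∀ x, u (u x) = -x) (θ : ℝ) : C2 ≃ₗᵢ[ℝ] C2 :=
  LinearIsometry.toLinearIsometryEquiv
    { toLinearMap := Real.cos θ • LinearMap.id + Real.sin θ • u.toLinearEquiv.toLinearMap
      norm_map' := by
        intro x
        have hsk : (inner ℝ x (u x) : ℝ) = 0 := by
          have h1 : (inner ℝ (u x) (u (u x)) : ℝ) = inner ℝ x (u x) := u.inner_map_map x (u x)
          rw [hu, inner_neg_right, real_inner_comm] at h1
          linarith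
        have hn : ‖u x‖ = ‖x‖ := u.norm_map x
        have h2 : ‖Real.cos θ • x + Real.sin θ • u x‖ ^ 2 = ‖x‖ ^ 2 := by
          rw [norm_add_sq_real, real_inner_smul_left, real_inner_smul_right, hsk, norm_smul,
            norm_smul, hn, Real.norm_eq_abs, Real.norm_eq_abs, mul_pow, mul_pow, sq_abs, sq_abs]
          have h3 := Real.sin_sq_add_cos_sq θ
          have h4 : Real.cos θ ^ 2 * ‖x‖ ^ 2 + 2 * (Real.cos θ * (Real.sin θ * 0)) +
              Real.sin θ ^ 2 * ‖x‖ ^ 2 = (Real.sin θ ^ 2 + Real.cos θ ^ 2) * ‖x‖ ^ 2 := by ring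
          rw [h4, h3, one_mul]
        have h5 : ‖Real.cos θ • x + Real.sin θ • u x‖ = ‖x‖ :=
          (pow_left_inj₀ (norm_nonneg _) (norm_nonneg _) (by norm_num)).1 h2
        exact h5 } rfl

theorem rot_apply (u : C2 ≃ₗᵢ[ℝ] C2) (hu : ∀ x, u (u x) = -x) (θ : ℝ) (w : C2) :
    rot u hu θ w = Real.cos θ • w + Real.sin θ • u w := rfl

/-- Gaussian integral of the square of the support function -/
noncomputable def G2 (K : Body) : ℝ≥0∞ :=
  ∫⁻ w : C2, ENNReal.ofReal (hs K w ^ 2 / 2) * ENNReal.ofReal (Real.exp (-‖w‖ ^ 2))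

theorem upper (u : C2 ≃ₗᵢ[ℝ] C2) (hu : ∀ x, u (u x) = -x) (K : Body) (h0 : (0 : C2) ∈ pts K) :
    ∫⁻ w : C2, ENNReal.ofReal (Real.exp (-‖w‖ ^ 2)) * shad u (pts K) w ≤
      ENNReal.ofReal (2 * Real.pi) * G2 K := by
  have hm : Measurable (fun q : C2 × ℝ => ENNReal.ofReal
      (hs K (Real.cos q.2 • q.1 + Real.sin q.2 • u q.1) ^ 2 / 2) *
        ENNReal.ofReal (Real.exp (-‖q.1‖ ^ 2))) := by
    have hc : Continuous (fun q : C2 × ℝ => hs K (Real.cos q.2 • q.1 + Real.sin q.2 • u q.1)) :=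
      (hs_continuous K).comp (by
        have := u.continuous
        fun_prop)
    have h1 : Measurable (fun q : C2 × ℝ => ENNReal.ofReal
      (hs K (Real.cos q.2 • q.1 + Real.sin q.2 • u q.1) ^ 2 / 2)) :=
      ENNReal.measurable_ofReal.comp (((hc.pow 2).div_const 2).measurable)
    have h2 : Measurable (fun q : C2 × ℝ => ENNReal.ofReal (Real.exp (-‖q.1‖ ^ 2))) := by
      fun_prop
    exact h1.mul h2
  calc ∫⁻ w : C2, ENNReal.ofReal (Real.exp (-‖w‖ ^ 2)) * shad u (pts K) w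
      ≤ ∫⁻ w : C2, ∫⁻ θ in Ioo (-Real.pi) Real.pi, ENNReal.ofReal
          (hs K (Real.cos θ • w + Real.sin θ • u w) ^ 2 / 2) *
            ENNReal.ofReal (Real.exp (-‖w‖ ^ 2)) := by
        refine lintegral_mono fun w => ?_
        rw [lintegral_mul_const' _ _ ENNReal.ofReal_ne_top, mul_comm]
        exact mul_le_mul_left (shad_le u K h0 w) _
    _ = ∫⁻ θ in Ioo (-Real.pi) Real.pi, ∫⁻ w : C2, ENNReal.ofReal
          (hs K (Real.cos θ • w + Real.sin θ • u w) ^ 2 / 2) *
            ENNReal.ofReal (Real.exp (-‖w‖ ^ 2)) :=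
        lintegral_lintegral_swap hm.aemeasurable
    _ = ∫⁻ θ in Ioo (-Real.pi) Real.pi, G2 K := by
        refine lintegral_congr fun θ => ?_
        have hF : Measurable (fun w : C2 => ENNReal.ofReal (hs K w ^ 2 / 2) *
            ENNReal.ofReal (Real.exp (-‖w‖ ^ 2))) := by
          have h1 : Measurable (fun w : C2 => ENNReal.ofReal (hs K w ^ 2 / 2)) :=
            ENNReal.measurable_ofReal.comp ((((hs_continuous K).pow 2).div_const 2).measurable)
          have h2 : Measurable (fun w : C2 => ENNReal.ofReal (Real.exp (-‖w‖ ^ 2))) := by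
            fun_prop
          exact h1.mul h2
        have h := (rot u hu θ).measurePreserving.lintegral_comp hF
        unfold G2
        rw [← h]
        refine lintegral_congr fun w => ?_
        rw [(rot u hu θ).norm_map, rot_apply]
    _ = ENNReal.ofReal (2 * Real.pi) * G2 K := by
        rw [setLIntegral_const, Real.volume_Ioo, mul_comm]
        congr 2; ring

/-- the shadow of a circled body on a complex line contains a disc of radius `h(w)` -/
theorem shad_circled (K : Body) (hK : Circled K) (w : C2) :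
    ENNReal.ofReal (Real.pi * hs K w ^ 2) ≤ shad J (pts K) w := by
  rw [← F_disc]
  unfold shad
  refine measure_mono ?_
  obtain ⟨x, hx, hxw⟩ := hs_attained K w
  intro p hp
  have hp' : p.1 ^ 2 + p.2 ^ 2 < hs K w ^ 2 := hp
  -- the complex number of `x`
  set a : ℝ := inner ℝ x w with ha
  set b : ℝ := inner ℝ x (J w) with hb
  have hJ1 : (inner ℝ (J x) w : ℝ) = -b := by
    rw [C2_inner, hb, C2_inner]; simp; ring
  have hJ2 : (inner ℝ (J x) (J w) : ℝ) = a := by
    rw [C2_inner, ha, C2_inner]; simp; ring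
  have hA : 0 < a ^ 2 + b ^ 2 := by
    rw [← hxw] at hp'
    nlinarith [sq_nonneg p.1, sq_nonneg p.2, sq_nonneg b]
  -- point `s (cos t x + sin t J x)` with coordinates `s (a cos t - b sin t, b cos t + a sin t)`
  set c : ℝ := (p.1 * a + p.2 * b) / (a ^ 2 + b ^ 2) with hc
  set d : ℝ := (p.2 * a - p.1 * b) / (a ^ 2 + b ^ 2) with hd
  have hcd : c ^ 2 + d ^ 2 ≤ 1 := by
    have e : c ^ 2 + d ^ 2 = (p.1 ^ 2 + p.2 ^ 2) / (a ^ 2 + b ^ 2) := by
      rw [hc, hd]; field_simp; ring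
    rw [e, div_le_one hA]
    rw [← hxw] at hp'
    nlinarith [sq_nonneg b]
  have hmem : c • x + d • J x ∈ pts K := by
    set s : ℝ := Real.sqrt (c ^ 2 + d ^ 2) with hs'
    have hs0 : 0 ≤ s := Real.sqrt_nonneg _
    have hs1 : s ≤ 1 := by rw [hs']; exact Real.sqrt_le_one.2 hcd
    obtain ⟨t, ht1, ht2⟩ : ∃ t : ℝ, c = s * Real.cos t ∧ d = s * Real.sin t := by
      refine ⟨Complex.arg ⟨c, d⟩, ?_, ?_⟩
      · have h := Complex.norm_mul_cos_arg ⟨c, d⟩
        rw [Complex.norm_def, Complex.normSq_mk] at h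
        rw [hs', sq, sq]; exact h.symm
      · have h := Complex.norm_mul_sin_arg ⟨c, d⟩
        rw [Complex.norm_def, Complex.normSq_mk] at h
        rw [hs', sq, sq]; exact h.symm
    have h1 := hK t x hx
    have h2 := K.convex h1 hK.zero_mem hs0 (by linarith : 0 ≤ 1 - s) (by ring)
    have h3 : s • (Real.cos t • x + Real.sin t • J x) + (1 - s) • (0 : C2) =
        c • x + d • J x := by
      rw [smul_zero, add_zero, smul_add, smul_smul, smul_smul, ← ht1, ← ht2]
    rw [h3] at h2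
    exact h2
  refine ⟨c • x + d • J x, hmem, ?_⟩
  have hA' : a ^ 2 + b ^ 2 ≠ 0 := hA.ne'
  refine Prod.ext ?_ ?_
  · change (inner ℝ (c • x + d • J x) w : ℝ) = p.1
    rw [inner_add_left, real_inner_smul_left, real_inner_smul_left, hJ1, ← ha, hc, hd]
    field_simp; ring
  · change (inner ℝ (c • x + d • J x) (J w) : ℝ) = p.2
    rw [inner_add_left, real_inner_smul_left, real_inner_smul_left, hJ2, ← hb, hc, hd]
    field_simp; ring

theorem lower (K : Body) (hK : Circled K) :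
    ENNReal.ofReal (2 * Real.pi) * G2 K ≤
      ∫⁻ w : C2, ENNReal.ofReal (Real.exp (-‖w‖ ^ 2)) * shad J (pts K) w := by
  unfold G2
  rw [← lintegral_const_mul' _ _ ENNReal.ofReal_ne_top]
  refine lintegral_mono fun w => ?_
  calc ENNReal.ofReal (2 * Real.pi) *
        (ENNReal.ofReal (hs K w ^ 2 / 2) * ENNReal.ofReal (Real.exp (-‖w‖ ^ 2)))
      = ENNReal.ofReal (Real.exp (-‖w‖ ^ 2)) * ENNReal.ofReal (Real.pi * hs K w ^ 2) := by
        rw [← mul_assoc, ← ENNReal.ofReal_mul (by positivity), mul_comm]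
        congr 2; ring
    _ ≤ ENNReal.ofReal (Real.exp (-‖w‖ ^ 2)) * shad J (pts K) w :=
        mul_le_mul_right (shad_circled K hK w) _

theorem lin_eq (u : C2 ≃ₗᵢ[ℝ] C2) (K : Body) :
    ∫⁻ w : C2, ENNReal.ofReal (Real.exp (-‖w‖ ^ 2)) * shad u (pts K) w =
      ENNReal.ofReal (2 * Real.pi ^ 2 * Mu u K) := by
  have hint : Integrable (fun w : C2 => area u K w * Real.exp (-‖w‖ ^ 2)) :=
    area_integrable u.toLinearIsometry K
  have e : 2 * Real.pi ^ 2 * Mu u K = ∫ w : C2, area u K w * Real.exp (-‖w‖ ^ 2) := by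
    unfold Mu
    have : (0 : ℝ) < 2 * Real.pi ^ 2 := by positivity
    field_simp
  rw [e, ofReal_integral_eq_lintegral_ofReal hint (Filter.Eventually.of_forall fun w =>
      mul_nonneg (I1_area_nonneg u K w) (Real.exp_pos _).le)]
  refine lintegral_congr fun w => ?_
  rw [shad_eq u, ENNReal.ofReal_mul (I1_area_nonneg u K w), mul_comm]

theorem Mu_nonneg' (u : C2 → C2) (K : Body) : 0 ≤ Mu u K := by
  unfold Mu
  refine mul_nonneg (by positivity) (integral_nonneg fun w => ?_)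
  exact mul_nonneg (I1_area_nonneg u K w) (Real.exp_pos _).le

/-- for circled bodies every mean over Lagrangian planes is at most the complex mean -/
theorem Mu_le (u : C2 ≃ₗᵢ[ℝ] C2) (hu : ∀ x, u (u x) = -x) (K : Body) (hK : Circled K) :
    Mu u K ≤ Mu J K := by
  have h := (upper u hu K hK.zero_mem).trans (lower K hK)
  have h2 := lin_eq JL K
  rw [JL_coe] at h2
  rw [lin_eq u K, h2] at h
  have h3 := (ENNReal.ofReal_le_ofReal_iff (mul_nonneg (by positivity) (Mu_nonneg' J K))).1 h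
  have hp : (0 : ℝ) < 2 * Real.pi ^ 2 := by positivity
  exact le_of_mul_le_mul_left h3 hp

theorem MLag_le (K : Body) (hK : Circled K) : MLag K ≤ Mu J K := by
  have h : ∀ α : ℝ, Mu (Uq α) K ≤ Mu J K := fun α => Mu_le (UL α) (Uq_Uq α) K hK
  have h2 : ∫ α in (0 : ℝ)..(2 * Real.pi), Mu (Uq α) K ≤
      ∫ _α in (0 : ℝ)..(2 * Real.pi), Mu J K :=
    intervalIntegral.integral_mono_on (by positivity)
      ((Mu_continuous_alpha K).intervalIntegrable _ _) (by simp) fun α _ => h α
  rw [intervalIntegral.integral_const, sub_zero, smul_eq_mul] at h2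
  unfold MLag
  rw [inv_mul_eq_div, div_le_iff₀ (by positivity)]
  linarith

theorem MuJ_ge (K : Body) (hK : UnitVolume K) : Real.sqrt 2 ≤ Mu J K := by
  have hvol : volume (ball (0 : C2) r₁) ≤ volume (pts K) := by
    rw [vol_ball4' 0 r₁ r₁_pos.le, r₁_vol, ENNReal.ofReal_one]
    exact le_of_eq hK.symm
  rw [← pi_r₁_sq]
  exact Mu_ge JL (UL 0) J_J (Uq_Uq 0) (J_Uq 0) K r₁ r₁_pos hvol

theorem MLag_ge' (K : Body) (hK : UnitVolume K) : Real.sqrt 2 ≤ MLag K := by
  have hvol : volume (ball (0 : C2) r₁) ≤ volume (pts K) := by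
    rw [vol_ball4' 0 r₁ r₁_pos.le, r₁_vol, ENNReal.ofReal_one]
    exact le_of_eq hK.symm
  rw [← pi_r₁_sq]
  exact MLag_ge K r₁ r₁_pos hvol

theorem muab_ge_circled (a b : ℝ) (h₁ : -b ≤ 2 * a) (h₂ : 2 * a ≤ 3 * b) (K : Body)
    (hK : UnitVolume K) (hc : Circled K) : Real.sqrt 2 * (2 * a + b) ≤ muab a b K := by
  rcases le_total b (2 * a) with h | h
  · exact muab_ge a b h h₂ K hK
  · have hJ := MuJ_ge K hK
    have hL := MLag_le K hc
    unfold muab
    have h1 := mul_le_mul_of_nonneg_left hL (by linarith : 0 ≤ 2 * (b - 2 * a))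
    have h2 := mul_le_mul_of_nonneg_left hJ (by linarith : 0 ≤ 2 * a + b)
    linarith

theorem muab_ball' (a b : ℝ) (K : Body) (hK : UnitVolume K)
    (x₀ : C2) (r : ℝ) (hr : 0 ≤ r) (hKb : pts K = closedBall x₀ r) :
    muab a b K = Real.sqrt 2 * (2 * a + b) := by
  have hvol : ENNReal.ofReal (Real.pi ^ 2 / 2 * r ^ 4) = 1 := by
    rw [← vol_ball4 x₀ r hr, ← hKb]; exact hK
  have hr1 : Real.pi ^ 2 / 2 * r ^ 4 = 1 := by
    have := congrArg ENNReal.toReal hvol
    rwa [ENNReal.toReal_ofReal (by positivity), ENNReal.toReal_one] at this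
  have hrr : r = r₁ := by
    have h4 : r ^ 4 = r₁ ^ 4 := by
      have hp : (0 : ℝ) < Real.pi ^ 2 / 2 := by positivity
      have := hr1.trans r₁_vol.symm
      exact mul_left_cancel₀ hp.ne' this
    exact (pow_left_inj₀ hr r₁_pos.le (by norm_num)).1 h4
  subst hrr
  have hJ : Mu J K ≤ Real.sqrt 2 := by
    rw [← pi_r₁_sq]
    exact Mu_ball_le JL J_J K x₀ r₁ r₁_pos hKb
  have hL : MLag K ≤ Real.sqrt 2 := by
    rw [← pi_r₁_sq]
    exact MLag_ball_le K x₀ r₁ r₁_pos hKb
  have hJ' : Mu J K = Real.sqrt 2 := le_antisymm hJ (MuJ_ge K hK)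
  have hL' : MLag K = Real.sqrt 2 := le_antisymm hL (MLag_ge' K hK)
  unfold muab
  rw [hJ', hL']; ring

theorem unitBall_circled : Circled unitBall := by
  intro t x hx
  have hx' : ‖x‖ ≤ r₁ := by
    have : x ∈ closedBall (0 : C2) r₁ := hx
    simpa using this
  change Real.cos t • x + Real.sin t • J x ∈ closedBall (0 : C2) r₁
  have h : rot JL J_J t x = Real.cos t • x + Real.sin t • J x := rfl
  rw [← h, mem_closedBall, dist_zero_right, (rot JL J_J t).norm_map]
  exact hx'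

theorem minimum_circled (a b : ℝ) (h₁ : -b ≤ 2 * a) (h₂ : 2 * a ≤ 3 * b) :
    ∃ μ : Body → ℝ, IsHermVal a b μ ∧
      IsLeast {r | ∃ K : Body, Circled K ∧ UnitVolume K ∧ μ K = r}
        (Real.sqrt 2 * (2 * a + b)) ∧
      ∀ (K : Body) (x : C2) (r : ℝ), 0 ≤ r → pts K = closedBall x r → UnitVolume K →
        μ K = Real.sqrt 2 * (2 * a + b) := by
  refine ⟨muab a b, isHermVal_muab a b, ⟨⟨unitBall, unitBall_circled, unitBall_volume,
    muab_ball' a b unitBall unitBall_volume 0 r₁ r₁_pos.le rfl⟩, ?_⟩, ?_⟩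
  · rintro _ ⟨K, hc, hK, rfl⟩
    exact muab_ge_circled a b h₁ h₂ K hK hc
  · intro K x r hr hKb hK
    exact muab_ball' a b K hK x r hr hKb

end Pool.Agent.Helper90.Circ
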